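import Pool.Agent.Helper49.RU.St

/-! Module TWI of project RU: twisted averages and phase vectors. -/

set_option autoImplicit false

namespace Pool.Agent.Helper10.RU

open Pool.Agent.Helper49.RU
open MeasureTheory Filter Topology Complex
open scoped ENNReal Cardinal ComplexConjugate

private theorem om_norm : ‖om‖ = 1 := by
  unfold om
  have h : (2 * (Real.pi : ℂ) * Complex.I / 3) = ((2 * Real.pi / 3 : ℝ) : ℂ) * Complex.I := by
    push_cast
    ring
  rw [h]
  exact Complex.norm_exp_ofReal_mul_I _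

private theorem chi0_norm (a : Fin 3) (x : Q) : ‖chi0 a x‖ = 1 := by
  unfold chi0
  rw [norm_pow, om_norm, one_pow]

section

variable {J : Type} [Fintype J] [DecidableEq J]

omit [DecidableEq J] in
private theorem chi_norm (s : J → Fin 3) (g : J → Q) : ‖chi s g‖ = 1 := by
  unfold chi
  rw [norm_prod]
  exact Finset.prod_eq_one fun j _ => chi0_norm _ _

private theorem unit_mul_conj {z : ℂ} (h : ‖z‖ = 1) : z * conj z = 1 := by
  rw [Complex.mul_conj, Complex.normSq_eq_norm_sq, h]
  norm_num

omit [DecidableEq J] in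
/-- the kernel of the twisted average only depends on the parameters outside `T` -/
private theorem chi_kernel (T : Finset J) (g q : J → Q) (hg : ∀ j, j ∉ T → g j = q j)
    (s t : J → Fin 3) (hst : ∀ j ∈ T, t j = s j) :
    chi s g * conj (chi t g) = chi s q * conj (chi t q) := by
  unfold chi
  rw [map_prod, map_prod, ← Finset.prod_mul_distrib, ← Finset.prod_mul_distrib]
  refine Finset.prod_congr rfl fun j _ => ?_
  by_cases hj : j ∈ T
  · rw [hst j hj, unit_mul_conj (chi0_norm _ _), unit_mul_conj (chi0_norm _ _)]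
  · rw [hg j hj]

private theorem pp_apply (T : Finset J) (g : J → Q) (w : EuclideanSpace ℂ (J → Fin 3))
    (s : J → Fin 3) : pp T g w s = chi s g * av T (fun t => conj (chi t g) * w t) s := rfl

private theorem pp_eq (T : Finset J) (g : J → Q) (w : EuclideanSpace ℂ (J → Fin 3))
    (s : J → Fin 3) : pp T g w s =
      (∑ t : J → Fin 3, if (∀ j ∈ T, t j = s j) then (chi s g * conj (chi t g)) * w t else 0) /
        (3 : ℂ) ^ (Fintype.card J - T.card) := by
  rw [pp_apply]
  unfold av
  rw [mul_div_assoc', Finset.mul_sum]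
  congr 1
  refine Finset.sum_congr rfl fun t _ => ?_
  split_ifs
  · ring
  · rw [mul_zero]

private theorem pp_dep (T : Finset J) (g q : J → Q) (hg : ∀ j, j ∉ T → g j = q j)
    (w : EuclideanSpace ℂ (J → Fin 3)) : pp T g w = pp T q w := by
  ext s
  rw [pp_eq, pp_eq]
  congr 1
  refine Finset.sum_congr rfl fun t _ => ?_
  split_ifs with h
  · rw [chi_kernel T g q hg s t h]
  · rfl

omit [DecidableEq J] in
private theorem nf_sq : nf J * nf J = ((3 : ℂ) ^ (Fintype.card J))⁻¹ := by
  unfold nf
  rw [← Complex.ofReal_mul, ← mul_inv, ← mul_pow, Real.mul_self_sqrt (by norm_num)]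
  push_cast
  rfl

omit [DecidableEq J] in
private theorem nf_conj : conj (nf J) = nf J := by
  unfold nf
  exact Complex.conj_ofReal _

omit [DecidableEq J] in
private theorem nf_norm_sq : ‖nf J‖ ^ 2 = ((3 : ℝ) ^ (Fintype.card J))⁻¹ := by
  have h := nf_sq (J := J)
  have h2 := congrArg norm h
  rw [norm_mul, norm_inv, norm_pow] at h2
  rw [sq, h2]
  norm_num

private theorem zz_norm (g : J → Q) : ‖zz g‖ = 1 := by
  have h : ‖zz g‖ ^ 2 = 1 := by
    rw [EuclideanSpace.norm_sq_eq]
    have h1 : ∀ s : J → Fin 3, ‖(zz g) s‖ ^ 2 = ((3 : ℝ) ^ (Fintype.card J))⁻¹ := by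
      intro s
      show ‖nf J * chi s g‖ ^ 2 = _
      rw [norm_mul, chi_norm, mul_one, nf_norm_sq]
    rw [Finset.sum_congr rfl fun s _ => h1 s, Finset.sum_const, Finset.card_univ,
      Fintype.card_fun, Fintype.card_fin, nsmul_eq_mul]
    push_cast
    exact mul_inv_cancel₀ (by positivity)
  have h0 := norm_nonneg (zz g)
  nlinarith

private theorem pp_empty (g : J → Q) (w : EuclideanSpace ℂ (J → Fin 3)) :
    pp ∅ g w = pz (zz g) w := by
  ext s
  rw [pp_apply]
  unfold av pz
  have h1 : (inner ℂ (zz g) w : ℂ) = nf J * ∑ t, conj (chi t g) * w t := by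
    rw [PiLp.inner_apply, Finset.mul_sum]
    refine Finset.sum_congr rfl fun t _ => ?_
    show (inner ℂ (nf J * chi t g) (w t) : ℂ) = _
    rw [RCLike.inner_apply]
    rw [map_mul, nf_conj]
    ring
  rw [h1]
  show _ = (nf J * ∑ t, conj (chi t g) * w t) * (nf J * chi s g)
  have h2 : (nf J * ∑ t, conj (chi t g) * w t) * (nf J * chi s g)
      = (nf J * nf J) * (chi s g * ∑ t, conj (chi t g) * w t) := by ring
  rw [h2, nf_sq]
  simp only [Finset.notMem_empty, false_implies, implies_true, if_true, Finset.card_empty,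
    Nat.sub_zero]
  rw [div_eq_mul_inv]
  ring

/-- number of functions which agree with `s` on `T` -/
private theorem count_eq (T : Finset J) (s : J → Fin 3) :
    ((Finset.univ : Finset (J → Fin 3)).filter fun t => ∀ j ∈ T, t j = s j).card
      = 3 ^ (Fintype.card J - T.card) := by
  have h : ((Finset.univ : Finset (J → Fin 3)).filter fun t => ∀ j ∈ T, t j = s j)
      = Fintype.piFinset (fun j => if j ∈ T then {s j} else (Finset.univ : Finset (Fin 3))) := by
    ext t
    simp only [Finset.mem_filter, Finset.mem_univ, true_and, Fintype.mem_piFinset]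
    refine forall_congr' fun j => ?_
    by_cases hj : j ∈ T
    · simp [hj]
    · simp [hj]
  rw [h, Fintype.card_piFinset]
  have h2 : ∀ j : J, (if j ∈ T then {s j} else (Finset.univ : Finset (Fin 3))).card
      = if j ∈ T then 1 else 3 := by
    intro j
    split_ifs <;> simp
  rw [Finset.prod_congr rfl fun j _ => h2 j, Finset.prod_ite, Finset.prod_const_one, one_mul,
    Finset.prod_const]
  congr 1
  have h3 : ((Finset.univ : Finset J).filter fun j => ¬ j ∈ T) = Tᶜ := by
    ext j
    simp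
  rw [h3, Finset.card_compl]

/-- the average is a contraction -/
private theorem av_contr (T : Finset J) (v : (J → Fin 3) → ℂ) :
    ∑ s, ‖av T v s‖ ^ 2 ≤ ∑ s, ‖v s‖ ^ 2 := by
  obtain ⟨K, hK⟩ : ∃ K : ℝ, K = (3 : ℝ) ^ (Fintype.card J - T.card) := ⟨_, rfl⟩
  have hK0 : 0 < K := by rw [hK]; positivity
  have h1 : ∀ s, ‖av T v s‖ ^ 2 ≤
      (∑ t : J → Fin 3, if (∀ j ∈ T, t j = s j) then ‖v t‖ ^ 2 else 0) / K := by
    intro s
    unfold av
    rw [norm_div, div_pow, norm_pow]
    have h3 : ‖(3 : ℂ)‖ = 3 := by norm_num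
    rw [h3, ← hK, ← Finset.sum_filter, ← Finset.sum_filter, div_le_div_iff₀ (by positivity) hK0]
    have h4 : ‖∑ t ∈ Finset.univ.filter (fun t : J → Fin 3 => ∀ j ∈ T, t j = s j), v t‖ ^ 2
        ≤ K * ∑ t ∈ Finset.univ.filter (fun t : J → Fin 3 => ∀ j ∈ T, t j = s j),
          ‖v t‖ ^ 2 := by
      have h5 := norm_sum_le (Finset.univ.filter (fun t : J → Fin 3 => ∀ j ∈ T, t j = s j)) v
      have h6 : (∑ t ∈ Finset.univ.filter (fun t : J → Fin 3 => ∀ j ∈ T, t j = s j), ‖v t‖) ^ 2
          ≤ ((Finset.univ.filter (fun t : J → Fin 3 => ∀ j ∈ T, t j = s j)).card : ℝ) *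
            ∑ t ∈ Finset.univ.filter (fun t : J → Fin 3 => ∀ j ∈ T, t j = s j), ‖v t‖ ^ 2 :=
        sq_sum_le_card_mul_sum_sq
      rw [count_eq T s] at h6
      push_cast at h6
      rw [← hK] at h6
      exact (pow_le_pow_left₀ (norm_nonneg _) h5 2).trans h6
    calc _ ≤ (K * ∑ t ∈ Finset.univ.filter (fun t : J → Fin 3 => ∀ j ∈ T, t j = s j),
          ‖v t‖ ^ 2) * K := mul_le_mul_of_nonneg_right h4 hK0.le
      _ = _ := by ring
  refine (Finset.sum_le_sum fun s _ => h1 s).trans ?_
  rw [← Finset.sum_div, Finset.sum_comm, div_le_iff₀ hK0, Finset.sum_mul]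
  refine Finset.sum_le_sum fun t _ => ?_
  rw [← Finset.sum_filter, Finset.sum_const, nsmul_eq_mul]
  have h7 : ((Finset.univ : Finset (J → Fin 3)).filter fun s => ∀ j ∈ T, t j = s j)
      = ((Finset.univ : Finset (J → Fin 3)).filter fun s => ∀ j ∈ T, s j = t j) := by
    ext s
    simp only [Finset.mem_filter, Finset.mem_univ, true_and]
    exact ⟨fun h j hj => (h j hj).symm, fun h j hj => (h j hj).symm⟩
  rw [h7, count_eq T t]
  push_cast
  rw [← hK]
  exact le_of_eq (mul_comm _ _)

private theorem mod_sq (g : J → Q) (w : EuclideanSpace ℂ (J → Fin 3)) :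
    ∑ s, ‖conj (chi s g) * w s‖ ^ 2 = ‖w‖ ^ 2 := by
  rw [EuclideanSpace.norm_sq_eq]
  refine Finset.sum_congr rfl fun s _ => ?_
  rw [norm_mul, RCLike.norm_conj, chi_norm, one_mul]

private theorem pp_norm (T : Finset J) (g : J → Q) (w : EuclideanSpace ℂ (J → Fin 3)) :
    ‖pp T g w‖ ≤ ‖w‖ := by
  have h : ‖pp T g w‖ ^ 2 ≤ ‖w‖ ^ 2 := by
    rw [← mod_sq g w, EuclideanSpace.norm_sq_eq]
    refine le_trans (le_of_eq ?_) (av_contr T (fun t => conj (chi t g) * w t))
    refine Finset.sum_congr rfl fun s _ => ?_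
    rw [pp_apply, norm_mul, chi_norm, one_mul]
  exact le_of_sq_le_sq h (norm_nonneg _)

private noncomputable def ppL (T : Finset J) (g : J → Q) :
    EuclideanSpace ℂ (J → Fin 3) →ₗ[ℂ] EuclideanSpace ℂ (J → Fin 3) where
  toFun := pp T g
  map_add' := by
    intro w w'
    ext s
    show pp T g (w + w') s = pp T g w s + pp T g w' s
    rw [pp_eq, pp_eq, pp_eq, ← add_div, ← Finset.sum_add_distrib]
    congr 1
    refine Finset.sum_congr rfl fun t _ => ?_
    split_ifs
    · show _ * (w t + w' t) = _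
      ring
    · rw [add_zero]
  map_smul' := by
    intro c w
    ext s
    show pp T g (c • w) s = c * pp T g w s
    rw [pp_eq, pp_eq, mul_div_assoc', Finset.mul_sum]
    congr 1
    refine Finset.sum_congr rfl fun t _ => ?_
    split_ifs
    · show _ * (c * w t) = _
      ring
    · rw [mul_zero]

end

theorem hTWI : StTWI := by
  refine ⟨fun k g => zz_norm g, fun k T g => ⟨fun q hq w => pp_dep T g q hq w,
    fun w => pp_empty g w, fun w => ?_, fun w => mod_sq g w, ?_⟩⟩
  · rw [← pp_empty g w, EuclideanSpace.norm_sq_eq]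
    refine Finset.sum_congr rfl fun s _ => ?_
    have h : (pp T g w - pp ∅ g w) s = chi s g *
        (av T (fun t => conj (chi t g) * w t) s - av ∅ (fun t => conj (chi t g) * w t) s) := by
      show pp T g w s - pp ∅ g w s = _
      rw [pp_apply, pp_apply, mul_sub]
    rw [h, norm_mul, chi_norm, one_mul]
  · refine ⟨(ppL T g).mkContinuous 1 fun w => ?_, ?_, fun w => rfl⟩
    · rw [one_mul]
      exact pp_norm T g w
    · exact LinearMap.mkContinuous_norm_le _ zero_le_one _

end Pool.Agent.Helper10.RU
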